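import Pool.Agent.TBirX.Fy

/-!
# MP_dd08d8_an: completely irreducible Toeplitz operators with a piecewise `C^1` symbol (jumps, corners, cusps)

Off the finite set `F` of the unit circle `phi` is `C^1` along the circle with nonzero derivative. At a point `t` of `F`
there are one-sided limits `u t`, `v t`, the derivative is bounded and its direction has one-sided limits (`PwC`). The
curve is completed by the segments from `u t` to `v t`, which meet the curve and each other in finitely many points, and `phi`
is injective off a finite set (`RegC`). A point of a segment is not a value of `phi` and not on another segment (`Sn`), or it is
a transversal crossing point of the segment with one branch of the curve (`Xb`) or with one other segment (`Xs`), near which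
winding numbers of both signs do not occur (`XCross.seg`). At a multiple value `q` (`XCross.mult`):
the curve has two transversal branches (`Dt`), of class `C^2` along the circle if winding numbers of both signs occur near
`q` (`Dp`); or `phi` is analytic at the points over `q` and the tangent vectors there lie in an open half plane; or `phi` is
analytic with nonzero derivative at the points over `q`, the inner winding number at `q` is `≥ 0` if no winding number near `q`
is negative, and the outer winding number is `≤ 0` if none is positive (`Nj`).
The Toeplitz operator with symbol `phi` is completely irreducible if and only if the winding number of the completed
curve does not take both a negative and a positive value off the curve.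
`Wj phi F l n`: the winding number about `l` is `n`, that is, `phi z - l = z ^ n * exp (h z)` on the circle without `F`,
where `h` is continuous and has one-sided limits at the points of `F` with jumps of the imaginary part less than `pi`
(the change of the argument along a segment).
-/

open Set Metric

namespace Pool.Agent.Results.MP_dd08d8_an.JumpCurves

open Pool.Agent.TBir Pool.Agent.TBirJ Pool.Agent.TBirX

theorem result {phi : ℂ → ℂ} {F : Finset ℂ} {u v : ℂ → ℂ} (cross : XCross phi F u v) :
    (∀ f ∈ H2, ∃! g, IsToeplitz phi f g) ∧ (BIR H2 (IsToeplitz phi) ↔
      ¬ ∃ (l l' : ℂ) (n n' : ℤ), Wj phi F l n ∧ Wj phi F l' n' ∧ n < 0 ∧ 0 < n') :=
  xc_main cross

end Pool.Agent.Results.MP_dd08d8_an.JumpCurves
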