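import Pool.Agent.TBirR.Main

/-!
# MP_dd08d8_an: completely irreducible Toeplitz operators, one-sided analytic symbols

`phi` is analytic in a neighbourhood of the unit circle and injective on the circle off a finite set
(critical points on the circle and multiple and tangential points of the curve are allowed).
Suppose that for every `l` either the winding number about `l` of the curve `phi(|z| = r)` is `≥ 0`
for `r < 1` near `1`, or the points near `l` off the curve with nonzero winding number all lie in one
connected set where the winding number is `1`. Then the Toeplitz operator with symbol `phi` is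
completely irreducible. The same holds with the signs reversed and `r > 1`.
-/

open Set Metric Filter Topology

namespace Pool.Agent.Results.MP_dd08d8_an.OneSided

open Pool.Agent.TBir

theorem result {phi : ℂ → ℂ} (ana : AnalyticOnNhd ℂ phi (sphere 0 1))
    (inj : ∃ E : Set ℂ, E.Finite ∧ InjOn phi (sphere 0 1 \ E))
    (side : (∀ l : ℂ, (∀ᶠ r : ℝ in 𝓝[<] 1, 0 ≤ (wind fun w => phi (r * w) - l).re) ∨
        ∃ A : Set ℂ, IsPreconnected A ∧
          (∀ l' ∈ A, l' ∉ phi '' sphere 0 1 ∧ (wind fun w => phi w - l') = 1) ∧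
          ∀ᶠ l' in 𝓝 l, l' ∉ phi '' sphere 0 1 → (wind fun w => phi w - l') = 0 ∨ l' ∈ A) ∨
      (∀ l : ℂ, (∀ᶠ r : ℝ in 𝓝[>] 1, (wind fun w => phi (r * w) - l).re ≤ 0) ∨
        ∃ A : Set ℂ, IsPreconnected A ∧
          (∀ l' ∈ A, l' ∉ phi '' sphere 0 1 ∧ (wind fun w => phi w - l') = -1) ∧
          ∀ᶠ l' in 𝓝 l, l' ∉ phi '' sphere 0 1 → (wind fun w => phi w - l') = 0 ∨ l' ∈ A)) :
    (∀ f ∈ H2, ∃! g, IsToeplitz phi f g) ∧ BIR H2 (IsToeplitz phi) := by
  obtain ⟨E, hE, hinj⟩ := inj
  exact Pool.Agent.TBirR.main_good ana hE hinj side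

end Pool.Agent.Results.MP_dd08d8_an.OneSided
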