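import Pool.Agent.TBirN.RgF

/-!
# MP_dd08d8_an: completely irreducible Toeplitz operators, winding numbers -1, 0, 1

Off the finite set `F` of the unit circle `phi` is `C^1` along the circle with nonzero derivative. At a point `t` of `F`
there are one-sided limits `u t`, `v t`, the derivative is bounded and its direction has one-sided limits (`PwC`: jumps,
corners, cusps). The curve is completed by the segments from `u t` to `v t`. `phi` is injective off a finite set, and a
segment meets the values of `phi` and the other segments in finitely many points only (`RegC`). The winding numbers of the
completed curve are `0`, `1` or `-1`; `OmJ phi F` is the open set of the points off the completed curve with winding number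
not `0`.
If `OmJ phi F` is connected, then the Toeplitz operator with symbol `phi` is completely irreducible. The converse holds
under the condition `NearN`: near each point `q` of a segment, and near each multiple value `q` which is taken at a point
where `phi` is not analytic with nonzero derivative (except transversal double points of class `C^2`), the points of
`OmJ phi F` lie in one connected subset of it.
-/

open Set Metric

namespace Pool.Agent.Results.MP_dd08d8_an.Regions

open Pool.Agent.TBir Pool.Agent.TBirJ Pool.Agent.TBirK Pool.Agent.TBirN

theorem result {phi : ℂ → ℂ} {F : Finset ℂ} {u v : ℂ → ℂ} (reg : RegC phi F u v)
    (small : ∀ l n, Wj phi F l n → |n| ≤ 1) :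
    (∀ f ∈ H2, ∃! g, IsToeplitz phi f g) ∧
      (IsPreconnected (OmJ phi F) → BIR H2 (IsToeplitz phi)) ∧
      (NearN phi F u v → BIR H2 (IsToeplitz phi) → IsPreconnected (OmJ phi F)) :=
  rg_mainN reg small

end Pool.Agent.Results.MP_dd08d8_an.Regions
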