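import Pool.Agent.TBirC.Fin

/-!
# MP_dd08d8_an: Toeplitz operators with bounded symbols which are not completely irreducible

`phi` is essentially bounded on the unit circle `T` (`e x` is the point `exp (2 pi i x)` of the circle), `S = Spec phi` is
the spectrum of the Toeplitz operator with symbol `phi`. Let `Q` be a finite set such that `S` without `Q` is
disconnected. Suppose that every `q` in `Q` is regular: `phi` is analytic with nonzero derivative at finitely many points
`t_j` of the circle with `phi (t_j) = q`, and for some `n` the Toeplitz operator with the symbol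
`z ^ n (phi z - q) / prod (z - t_j)` is invertible (`Reg1`); or `phi` is continuous on the circle and analytic with nonzero
derivative at the points which it sends to `q` (`Reg2`). Then the Toeplitz operator is not completely irreducible.
-/

open Set Metric Filter Topology MeasureTheory

namespace Pool.Agent.Results.MP_dd08d8_an.Splitting

open Pool.Agent.TBir Pool.Agent.TBirC

theorem result {phi : ℂ → ℂ}
    (bdd : MemLp (fun x : UnitAddCircle => phi (e x)) ⊤ AddCircle.haarAddCircle) {Q : Set ℂ}
    (fin : Q.Finite) (reg : ∀ q ∈ Q, Reg1 phi q ∨ Reg2 phi q)
    (disc : ¬ IsPreconnected (Spec phi \ Q)) :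
    (∀ f ∈ H2, ∃! g, IsToeplitz phi f g) ∧ ¬ BIR H2 (IsToeplitz phi) :=
  Pool.Agent.TBirC.main_disc bdd fin reg disc

end Pool.Agent.Results.MP_dd08d8_an.Splitting
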